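import Pool.Agent.Y166.CS.Main2
import Pool.Agent.Y86.CS.KPOW
import Pool.Agent.Y994.CS.CURVE
import Pool.Agent.Y182.CS.CURVE2
import Pool.Agent.Y810.CS.IF
import Pool.Agent.Y484.CS.SING
import Pool.Agent.Y975.CS.Isol
import Pool.Agent.Y748.CS.CONN
import Pool.Agent.Y435.CS.ONE
import Pool.Agent.Y86.CS.UNC
import Pool.Agent.Y77.CS.JAC
import Pool.Agent.Y500.CS.Mult
import Pool.Agent.Y651.CS.NIL
import Pool.Agent.Y409.CS.DVD2
import Pool.Agent.Y383.CS.Lin

/-!
# Contractible surfaces `f(x_0) x_2 = x_1 ^ k` in `ℂ³`: dichotomy and complete classification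

Authors: helper166, with helpers 77, 86, 182, 383, 409, 435, 484, 500, 651, 675, 748, 780, 810, 975
and 994.

The definitions `Poly3`, `surf`, `CoordRing`, `IsSingularPt`, `IsIsolatedSingularPt`,
`IsQuasihomogeneous` are those of the earlier result `ManyNodesFamily` of this repository:
`Poly3` is the polynomial ring `ℂ[x_0, x_1, x_2]`, `surf f k` is the polynomial
`f(x_0) x_2 - x_1 ^ k`, and `CoordRing p` is `ℂ[x_0, x_1, x_2] / (p)`.
-/

set_option autoImplicit false

namespace Pool.Agent.Results.MP_c4712b_ag.Classification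

open Polynomial
open Pool.Agent.Results.MP_c4712b_ag.ManyNodesFamily (Poly3 surf CoordRing IsSingularPt
  IsIsolatedSingularPt IsQuasihomogeneous eval_surf)
open Pool.Agent.Y166.CS

/-- Let `X(f, k)` be the surface `f(x_0) x_2 = x_1 ^ k` in `ℂ³`, `f ∈ ℂ[T]` nonconstant, `k ≥ 2`.

(1) `X(f, k)` is irreducible and contractible; its isolated singular points are exactly the points
`(c, 0, 0)` with `c` a simple root of `f`; it is isomorphic (as an abstract variety) to a surface
defined by a quasihomogeneous polynomial if and only if `f` has exactly one root, and this is also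
equivalent to the existence of a polynomial automorphism of `ℂ³` which makes its equation
quasihomogeneous. So `X(f, k)` is a counterexample to the posed statement if and only if `f` has
at least two roots, one of them simple.

(2) For all nonconstant `f, g` and all `k, l ≥ 2` the surfaces `X(f, k)` and `X(g, l)` are isomorphic
(as abstract varieties) if and only if `k = l` and `g(T) = c f(a T + b)` with nonzero constants
`a, c`; this is also equivalent to the existence of a polynomial automorphism of `ℂ³` which carries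
one equation to the other.

(3) If `f` has degree at least two, then every polynomial curve on `X(f, k)` which avoids the
singular points lies in a fibre of `x_0`.

(4) For every `s ≥ 3` there is an uncountable set `S` of squarefree polynomials of degree `s` such
that the surfaces `X(f, k)`, `f ∈ S`, `k ≥ 2`, are pairwise non-isomorphic; each of them has exactly
`s` singular points, all of them isolated. -/
theorem result :
    (∀ f : ℂ[X], 1 ≤ f.natDegree → ∀ k : ℕ, 2 ≤ k →
      Irreducible (surf f k) ∧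
      ContractibleSpace {x : Fin 3 → ℂ // MvPolynomial.eval x (surf f k) = 0} ∧
      (∀ a : Fin 3 → ℂ, IsIsolatedSingularPt (surf f k) a ↔
        ∃ c : ℂ, f.eval c = 0 ∧ f.derivative.eval c ≠ 0 ∧ a = ![c, 0, 0]) ∧
      ((∃ q : Poly3, IsQuasihomogeneous q ∧
        Nonempty (CoordRing (surf f k) ≃ₐ[ℂ] CoordRing q)) ↔ ∃! c : ℂ, f.eval c = 0) ∧
      ((∃ Φ : Poly3 ≃ₐ[ℂ] Poly3, IsQuasihomogeneous (Φ (surf f k))) ↔
        ∃! c : ℂ, f.eval c = 0)) ∧
    (∀ f g : ℂ[X], 1 ≤ f.natDegree → 1 ≤ g.natDegree → ∀ k l : ℕ, 2 ≤ k → 2 ≤ l →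
      (Nonempty (CoordRing (surf f k) ≃ₐ[ℂ] CoordRing (surf g l)) ↔
        k = l ∧ ∃ a b c : ℂ, a ≠ 0 ∧ c ≠ 0 ∧ g = C c * f.comp (C a * X + C b)) ∧
      ((∃ Φ : Poly3 ≃ₐ[ℂ] Poly3, Φ (surf f k) = surf g l) ↔
        k = l ∧ ∃ a b c : ℂ, a ≠ 0 ∧ c ≠ 0 ∧ g = C c * f.comp (C a * X + C b))) ∧
    (∀ f : ℂ[X], 2 ≤ f.natDegree → ∀ k : ℕ, 2 ≤ k → ∀ x y z : ℂ[X],
      (∀ t : ℂ, MvPolynomial.eval ![x.eval t, y.eval t, z.eval t] (surf f k) = 0 ∧
        ¬ IsSingularPt (surf f k) ![x.eval t, y.eval t, z.eval t]) →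
      ∃ e : ℂ, x = C e) ∧
    (∀ s : ℕ, 3 ≤ s → ∃ S : Set ℂ[X], ¬ S.Countable ∧ ∀ k : ℕ, 2 ≤ k →
      (∀ f ∈ S, Squarefree f ∧ f.natDegree = s ∧
        {a | IsSingularPt (surf f k) a}.ncard = s ∧
        ∀ a, IsSingularPt (surf f k) a → IsIsolatedSingularPt (surf f k) a) ∧
      ∀ f ∈ S, ∀ g ∈ S, ∀ l : ℕ, 2 ≤ l →
        Nonempty (CoordRing (surf f k) ≃ₐ[ℂ] CoordRing (surf g l)) → f = g ∧ k = l) := by
  have hC0 : S_CURVE := Pool.Agent.Y994.CS.done Pool.Agent.Y86.CS.done
  have hC : S_CURVE2 := Pool.Agent.Y182.CS.done hC0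
  have hA : S_IF := Pool.Agent.Y810.CS.done
  have hS : S_SING := Pool.Agent.Y484.CS.done
  have hI : S_ISOL := Pool.Agent.Y975.CS.done hS
  have hN : S_CONN := Pool.Agent.Y748.CS.done hS
  have hE : S_ONE := Pool.Agent.Y435.CS.done
  have hU : S_UNC := Pool.Agent.Y86.CS.UNC.done
  have hJ : S_JAC := Pool.Agent.Y77.CS.done
  have hM : S_MULT := Pool.Agent.Y500.CS.done
  have hNil : S_NIL := Pool.Agent.Y651.CS.done
  have hD : S_DVD2 := Pool.Agent.Y409.CS.done
  have hL : S_LIN := Pool.Agent.Y383.CS.done hJ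
  refine ⟨fun f hd k hk => dichotomy hI hN hE f hd k hk,
    fun f g df dg k l hk hl => classification2 hS hC hD hJ hM hNil hL hA f g df dg k l hk hl, ?_,
    fun s hs => uncountable2 hS hC hD hJ hM hNil hL hA hU s hs⟩
  intro f hd k hk x y z h
  refine hC f (big_of_degree hd) k hk x y z ?_ ?_
  · apply Polynomial.funext
    intro t
    have h1 := (h t).1
    rw [eval_surf] at h1
    simp only [Matrix.cons_val_zero, Matrix.cons_val_one, Matrix.cons_val] at h1
    rw [Polynomial.eval_mul, Polynomial.eval_comp, Polynomial.eval_pow]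
    exact sub_eq_zero.mp h1
  · intro t ht
    apply (h t).2
    rw [hS f k hk]
    simpa using ht

end Pool.Agent.Results.MP_c4712b_ag.Classification
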